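import Pool.Agent.Helper71.UN.StD

/-!
# Project UN, module ROT: rotations of two coordinates
-/

set_option autoImplicit false

open Set Filter Topology Matrix

noncomputable section

namespace Pool.Agent.Helper99.UN

open Pool.Agent.Helper71.UN

variable {n : ℕ}

private lemma raa (a b : Fin n) (e θ : ℝ) : rt a b e θ a a = Real.cos θ := by
  simp [rt]

private lemma rbb (a b : Fin n) (e θ : ℝ) (h : a ≠ b) : rt a b e θ b b = Real.cos θ := by
  simp [rt, h.symm]

private lemma rba (a b : Fin n) (e θ : ℝ) (h : a ≠ b) : rt a b e θ b a = e * Real.sin θ := by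
  simp [rt, h.symm, h]

private lemma rab (a b : Fin n) (e θ : ℝ) (h : a ≠ b) : rt a b e θ a b = -(e * Real.sin θ) := by
  simp [rt, h.symm, h]

private lemma rxo (a b : Fin n) (e θ : ℝ) (x c : Fin n) (h1 : x ≠ a) (h2 : x ≠ b) :
    rt a b e θ x c = if x = c then 1 else 0 := by
  simp [rt, h1, h2]

private lemma rox (a b : Fin n) (e θ : ℝ) (x c : Fin n) (h1 : c ≠ a) (h2 : c ≠ b) :
    rt a b e θ x c = if x = c then 1 else 0 := by
  simp [rt, h1, h2]

private lemma mra (a b : Fin n) (e θ : ℝ) (h : a ≠ b) (Q : Matrix (Fin n) (Fin n) ℝ) (x : Fin n) :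
    (Q * rt a b e θ) x a = Real.cos θ * Q x a + e * Real.sin θ * Q x b := by
  rw [Matrix.mul_apply, Fintype.sum_eq_add a b h, raa, rba a b e θ h]
  · ring
  · rintro z ⟨h1, h2⟩
    rw [rxo a b e θ z a h1 h2, if_neg h1, mul_zero]

private lemma mrb (a b : Fin n) (e θ : ℝ) (h : a ≠ b) (Q : Matrix (Fin n) (Fin n) ℝ) (x : Fin n) :
    (Q * rt a b e θ) x b = -(e * Real.sin θ) * Q x a + Real.cos θ * Q x b := by
  rw [Matrix.mul_apply, Fintype.sum_eq_add a b h, rbb a b e θ h, rab a b e θ h]
  · ring
  · rintro z ⟨h1, h2⟩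
    rw [rxo a b e θ z b h1 h2, if_neg h2, mul_zero]

private lemma mro (a b : Fin n) (e θ : ℝ) (Q : Matrix (Fin n) (Fin n) ℝ) (x y : Fin n)
    (h1 : y ≠ a) (h2 : y ≠ b) : (Q * rt a b e θ) x y = Q x y := by
  rw [Matrix.mul_apply, Fintype.sum_eq_single y, rox a b e θ y y h1 h2, if_pos rfl, mul_one]
  intro z hz
  rw [rox a b e θ z y h1 h2, if_neg hz, mul_zero]

private lemma orth (a b : Fin n) (e θ : ℝ) (h : a ≠ b) (he : e * e = 1) :
    rt a b e θ * (rt a b e θ)ᵀ = 1 := by
  have hcs := Real.cos_sq_add_sin_sq θ
  have hs : e * Real.sin θ * (e * Real.sin θ) = Real.sin θ ^ 2 := by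
    rw [show e * Real.sin θ * (e * Real.sin θ) = e * e * Real.sin θ ^ 2 by ring, he, one_mul]
  ext x y
  rw [Matrix.mul_apply, Matrix.one_apply]
  simp only [Matrix.transpose_apply]
  by_cases hxa : x = a
  · subst hxa
    rw [Fintype.sum_eq_add x b h, raa, rab x b e θ h]
    · by_cases hy : y = x
      · subst hy
        rw [raa, rab y b e θ h, if_pos rfl]
        linear_combination hcs + hs
      · rw [if_neg (Ne.symm hy)]
        by_cases hyb : y = b
        · subst hyb
          rw [rba x y e θ h, rbb x y e θ h]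
          ring
        · rw [rxo x b e θ y x hy hyb, rxo x b e θ y b hy hyb, if_neg hy, if_neg hyb]
          ring
    · rintro c ⟨h1, h2⟩
      rw [rox x b e θ x c h1 h2, if_neg h1.symm, zero_mul]
  · by_cases hxb : x = b
    · subst hxb
      rw [Fintype.sum_eq_add a x h, rbb a x e θ h, rba a x e θ h]
      · by_cases hy : y = x
        · subst hy
          rw [rbb a y e θ h, rba a y e θ h, if_pos rfl]
          linear_combination hcs + hs
        · rw [if_neg (Ne.symm hy)]
          by_cases hya : y = a
          · subst hya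
            rw [raa, rab y x e θ h]
            ring
          · rw [rxo a x e θ y x hya hy, rxo a x e θ y a hya hy, if_neg hy, if_neg hya]
            ring
      · rintro c ⟨h1, h2⟩
        rw [rox a x e θ x c h1 h2, if_neg h2.symm, zero_mul]
    · rw [Fintype.sum_eq_single x, rxo a b e θ x x hxa hxb, if_pos rfl, one_mul,
        rox a b e θ y x hxa hxb]
      · simp only [eq_comm]
      · intro c hc
        rw [rxo a b e θ x c hxa hxb, if_neg hc.symm, zero_mul]

private lemma zero (a b : Fin n) (e : ℝ) (h : a ≠ b) : rt a b e 0 = 1 := by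
  ext x c
  rw [Matrix.one_apply]
  by_cases ha : c = a
  · subst ha
    by_cases hx : x = c
    · subst hx
      rw [raa, Real.cos_zero, if_pos rfl]
    · by_cases hxb : x = b
      · subst hxb
        rw [rba c x e 0 h, Real.sin_zero, mul_zero, if_neg hx]
      · rw [rxo c b e 0 x c hx hxb]
  · by_cases hb : c = b
    · subst hb
      by_cases hx : x = a
      · subst hx
        rw [rab x c e 0 h, Real.sin_zero, mul_zero, neg_zero, if_neg h]
      · by_cases hxb : x = c
        · subst hxb
          rw [rbb a x e 0 h, Real.cos_zero, if_pos rfl]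
        · rw [rxo a c e 0 x c hx hxb]
    · rw [rox a b e 0 x c ha hb]

private lemma half (hf : StFRO) (u : Fin n → Fin 4) (a b : Fin n) (e : ℝ) (h : a ≠ b)
    (he : e * e = 1) (Q : Matrix (Fin n) (Fin n) ℝ) :
    fr (Q * rt a b e (Real.pi / 2)) u = fr Q (sw u a b) := by
  have al : Fin 4 → Fin n → Bool := fun _ _ => true
  ext l x y
  rw [(hf n al _ u).1, (hf n al _ (sw u a b)).1]
  rw [← Equiv.sum_comp (Equiv.swap a b) (fun c => if sw u a b c = l then Q x c * Q y c else 0)]
  refine Finset.sum_congr rfl fun c _ => ?_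
  have hu : sw u a b (Equiv.swap a b c) = u c := by
    unfold sw
    rw [Equiv.swap_apply_self]
  have hm : (Q * rt a b e (Real.pi / 2)) x c * (Q * rt a b e (Real.pi / 2)) y c
      = Q x (Equiv.swap a b c) * Q y (Equiv.swap a b c) := by
    by_cases ha : c = a
    · subst ha
      rw [mra c b e _ h, mra c b e _ h, Equiv.swap_apply_left, Real.cos_pi_div_two,
        Real.sin_pi_div_two]
      linear_combination (Q x b * Q y b) * he
    · by_cases hb : c = b
      · subst hb
        rw [mrb a c e _ h, mrb a c e _ h, Equiv.swap_apply_right, Real.cos_pi_div_two,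
          Real.sin_pi_div_two]
        linear_combination (Q x a * Q y a) * he
      · rw [mro a b e _ Q x c ha hb, mro a b e _ Q y c ha hb,
          Equiv.swap_apply_of_ne_of_ne ha hb]
  rw [hm]
  simp only [hu]

private lemma compl (a b : Fin n) (e φ : ℝ) (h : a ≠ b) (he : e * e = 1) :
    rt a b e (Real.pi / 2 - φ) = rt a b (-e) φ * rt a b e (Real.pi / 2) := by
  ext x c
  by_cases ha : c = a
  · subst ha
    rw [mra c b e _ h, Real.cos_pi_div_two, Real.sin_pi_div_two]
    by_cases hx : x = c
    · subst hx
      rw [raa, rab x b (-e) φ h, Real.cos_pi_div_two_sub]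
      linear_combination -Real.sin φ * he
    · by_cases hxb : x = b
      · subst hxb
        rw [rba c x e _ h, rbb c x (-e) φ h, Real.sin_pi_div_two_sub]
        ring
      · rw [rxo c b e _ x c hx hxb, rxo c b (-e) _ x c hx hxb, rxo c b (-e) _ x b hx hxb,
          if_neg hx, if_neg hxb]
        ring
  · by_cases hb : c = b
    · subst hb
      rw [mrb a c e _ h, Real.cos_pi_div_two, Real.sin_pi_div_two]
      by_cases hx : x = a
      · subst hx
        rw [raa, rab x c e _ h, Real.sin_pi_div_two_sub]
        ring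
      · by_cases hxb : x = c
        · subst hxb
          rw [rbb a x e _ h, rba a x (-e) φ h, Real.cos_pi_div_two_sub]
          linear_combination -Real.sin φ * he
        · rw [rxo a c e _ x c hx hxb, rxo a c (-e) _ x c hx hxb, rxo a c (-e) _ x a hx hxb,
            if_neg hx, if_neg hxb]
          ring
    · rw [mro a b e _ _ x c ha hb, rox a b e _ x c ha hb, rox a b (-e) _ x c ha hb]

private lemma exch (a b : Fin n) (e θ : ℝ) (h : a ≠ b) : rt b a e θ = rt a b (-e) θ := by
  ext x c
  by_cases ha : c = a
  · subst ha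
    by_cases hx : x = c
    · subst hx
      rw [raa, rbb b x e θ h.symm]
    · by_cases hxb : x = b
      · subst hxb
        rw [rab x c e θ h.symm, rba c x (-e) θ h]
        ring
      · rw [rxo b c e θ x c hxb hx, rxo c b (-e) θ x c hx hxb]
  · by_cases hb : c = b
    · subst hb
      by_cases hx : x = a
      · subst hx
        rw [rba c x e θ h.symm, rab x c (-e) θ h]
        ring
      · by_cases hxb : x = c
        · subst hxb
          rw [raa, rbb a x (-e) θ h]
        · rw [rxo c a e θ x c hxb hx, rxo a c (-e) θ x c hx hxb]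
    · rw [rox b a e θ x c hb ha, rox a b (-e) θ x c ha hb]

private lemma comm (a b : Fin n) (e θ : ℝ) (h : a ≠ b) (c d : Fin n) (f φ : ℝ) (h1 : c ≠ a)
    (h2 : c ≠ b) (h3 : d ≠ a) (h4 : d ≠ b) (h5 : c ≠ d) :
    rt a b e θ * rt c d f φ = rt c d f φ * rt a b e θ := by
  ext x y
  by_cases hya : y = a
  · subst hya
    rw [mro c d f φ _ x y h1.symm h3.symm, mra y b e θ h,
      rox c d f φ x y h1.symm h3.symm, rox c d f φ x b h2.symm h4.symm]
    by_cases hx : x = y
    · subst hx
      rw [raa, if_pos rfl, if_neg h]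
      ring
    · by_cases hxb : x = b
      · subst hxb
        rw [rba y x e θ h, if_neg hx, if_pos rfl]
        ring
      · rw [rxo y b e θ x y hx hxb, if_neg hx, if_neg hxb]
        ring
  · by_cases hyb : y = b
    · subst hyb
      rw [mro c d f φ _ x y h2.symm h4.symm, mrb a y e θ h,
        rox c d f φ x y h2.symm h4.symm, rox c d f φ x a h1.symm h3.symm]
      by_cases hx : x = a
      · subst hx
        rw [rab x y e θ h, if_pos rfl, if_neg h]
        ring
      · by_cases hxb : x = y
        · subst hxb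
          rw [rbb a x e θ h, if_neg hx, if_pos rfl]
          ring
        · rw [rxo a y e θ x y hx hxb, if_neg hx, if_neg hxb]
          ring
    · rw [mro a b e θ _ x y hya hyb]
      by_cases hyc : y = c
      · subst hyc
        rw [mra y d f φ h5, rox a b e θ x y h1 h2, rox a b e θ x d h3 h4]
        by_cases hx : x = y
        · subst hx
          rw [raa, if_pos rfl, if_neg h5]
          ring
        · by_cases hxd : x = d
          · subst hxd
            rw [rba y x f φ h5, if_neg hx, if_pos rfl]
            ring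
          · rw [rxo y d f φ x y hx hxd, if_neg hx, if_neg hxd]
            ring
      · by_cases hyd : y = d
        · subst hyd
          rw [mrb c y f φ h5, rox a b e θ x y h3 h4, rox a b e θ x c h1 h2]
          by_cases hx : x = c
          · subst hx
            rw [rab x y f φ h5, if_pos rfl, if_neg h5]
            ring
          · by_cases hxd : x = y
            · subst hxd
              rw [rbb c x f φ h5, if_neg hx, if_pos rfl]
              ring
            · rw [rxo c y f φ x y hx hxd, if_neg hx, if_neg hxd]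
              ring
        · rw [mro c d f φ _ x y hyc hyd, rox a b e θ x y hya hyb, rox c d f φ x y hyc hyd]

private lemma frow (hf : StFRO) (u : Fin n → Fin 4) (a b : Fin n) (e θ : ℝ) (h : a ≠ b)
    (l : Fin 4) (x y : Fin n) (hx : x = a ∨ x = b) :
    fr (rt a b e θ) u l x y = (if u a = l then rt a b e θ x a * rt a b e θ y a else 0) +
      (if u b = l then rt a b e θ x b * rt a b e θ y b else 0) := by
  have al : Fin 4 → Fin n → Bool := fun _ _ => true
  rw [(hf n al _ u).1, Fintype.sum_eq_add a b h]
  rintro c ⟨h1, h2⟩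
  rw [rox a b e θ x c h1 h2]
  have : x ≠ c := by
    rcases hx with hx | hx
    · rw [hx]; exact h1.symm
    · rw [hx]; exact h2.symm
  simp [this]

private lemma frox (hf : StFRO) (u : Fin n → Fin 4) (a b : Fin n) (e θ : ℝ)
    (l : Fin 4) (x y : Fin n) (h1 : x ≠ a) (h2 : x ≠ b) :
    fr (rt a b e θ) u l x y = (if x = y ∧ u x = l then 1 else 0) ∧
      fr (rt a b e θ) u l y x = (if x = y ∧ u x = l then 1 else 0) := by
  have al : Fin 4 → Fin n → Bool := fun _ _ => true
  have key : ∀ c, c ≠ x → rt a b e θ x c = 0 := fun c hc => by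
    rw [rxo a b e θ x c h1 h2, if_neg hc.symm]
  have kx : rt a b e θ x x = 1 := by rw [rxo a b e θ x x h1 h2, if_pos rfl]
  have ky : rt a b e θ y x = if x = y then 1 else 0 := by
    rw [rox a b e θ y x h1 h2]
    simp only [eq_comm]
  constructor
  · rw [(hf n al _ u).1, Fintype.sum_eq_single x, kx, ky]
    · by_cases hu : u x = l <;> by_cases hxy : x = y <;> simp [hu, hxy]
    · intro c hc
      rw [key c hc]
      simp
  · rw [(hf n al _ u).1, Fintype.sum_eq_single x, kx, ky]
    · by_cases hu : u x = l <;> by_cases hxy : x = y <;> simp [hu, hxy]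
    · intro c hc
      rw [key c hc]
      simp

theorem hROT (hf : StFRO) : StROT := by
  intro n u a b e h he
  have hs : ∀ θ, e * Real.sin θ * (e * Real.sin θ) = Real.sin θ ^ 2 := fun θ => by
    rw [show e * Real.sin θ * (e * Real.sin θ) = e * e * Real.sin θ ^ 2 by ring, he, one_mul]
  refine ⟨fun θ => orth a b e θ h he, zero a b e h, fun Q => half hf u a b e h he Q, fun φ => ?_,
    fun θ => exch a b e θ h, fun c d f θ φ h1 h2 h3 h4 h5 => comm a b e θ h c d f φ h1 h2 h3 h4 h5,
    fun θ l => ⟨?_, ?_, ?_, ?_, fun x y h1 h2 => frox hf u a b e θ l x y h1 h2⟩⟩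
  · rw [compl a b e φ h he, half hf u a b e h he]
  · rw [frow hf u a b e θ h l a a (Or.inl rfl), raa, rab a b e θ h, neg_mul_neg, hs, ← pow_two]
  · rw [frow hf u a b e θ h l b b (Or.inr rfl), rbb a b e θ h, rba a b e θ h, hs, ← pow_two]
  · rw [frow hf u a b e θ h l a b (Or.inl rfl), raa, rab a b e θ h, rba a b e θ h,
      rbb a b e θ h]
    split_ifs <;> ring
  · rw [frow hf u a b e θ h l b a (Or.inr rfl), raa, rab a b e θ h, rba a b e θ h,
      rbb a b e θ h]
    split_ifs <;> ring

end Pool.Agent.Helper99.UN
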